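import Pool.Agent.H897.CM6.Stm

/-! CM6-FIL (helper515). -/

namespace Pool.CM6

namespace FilAux

/-- binomial coefficients in a residue class modulo six -/
noncomputable def S (q r : ℕ) : ℝ :=
  ∑ i ∈ Finset.range (q + 1), if i % 6 = r % 6 then (q.choose i : ℝ) else 0

theorem S_mod (q r : ℕ) : S q (r % 6) = S q r := by
  unfold S
  rw [Nat.mod_mod]

theorem S_congr (q : ℕ) {r r' : ℕ} (h : r % 6 = r' % 6) : S q r = S q r' := by
  rw [← S_mod q r, h, S_mod]

theorem S_zero (r : ℕ) : S 0 r = if r % 6 = 0 then 1 else 0 := by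
  unfold S
  simp [eq_comm]

theorem S_succ (q r : ℕ) : S (q + 1) r = S q r + S q (r + 5) := by
  have h1 : S q r = ∑ i ∈ Finset.range (q + 1 + 1), if i % 6 = r % 6 then (q.choose i : ℝ) else 0 := by
    rw [Finset.sum_range_succ _ (q + 1), Nat.choose_eq_zero_of_lt (Nat.lt_succ_self q)]
    unfold S
    simp
  rw [h1]
  unfold S
  rw [Finset.sum_range_succ' _ (q + 1), Finset.sum_range_succ' _ (q + 1)]
  have h2 : ∀ i ∈ Finset.range (q + 1),
      (if (i + 1) % 6 = r % 6 then ((q + 1).choose (i + 1) : ℝ) else 0) =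
      (if (i + 1) % 6 = r % 6 then (q.choose (i + 1) : ℝ) else 0) +
      (if i % 6 = (r + 5) % 6 then (q.choose i : ℝ) else 0) := by
    intro i _
    by_cases h : (i + 1) % 6 = r % 6
    · rw [if_pos h, if_pos h, if_pos (by omega), Nat.choose_succ_succ]
      push_cast
      ring
    · rw [if_neg h, if_neg h, if_neg (by omega), add_zero]
  rw [Finset.sum_congr rfl h2, Finset.sum_add_distrib]
  simp only [Nat.choose_zero_right]
  ring

theorem total (q : ℕ) : S q 0 + S q 1 + S q 2 + S q 3 + S q 4 + S q 5 = 2 ^ q := by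
  induction q with
  | zero => simp [S_zero]
  | succ q ih =>
    simp only [S_succ]
    have e1 : S q (1 + 5) = S q 0 := S_congr q rfl
    have e2 : S q (2 + 5) = S q 1 := S_congr q rfl
    have e3 : S q (3 + 5) = S q 2 := S_congr q rfl
    have e4 : S q (4 + 5) = S q 3 := S_congr q rfl
    have e5 : S q (5 + 5) = S q 4 := S_congr q rfl
    rw [e1, e2, e3, e4, e5, zero_add, pow_succ]
    linarith

theorem even_part (q : ℕ) : |S q 0 + S q 3 - 2 ^ q / 3| ≤ 2 / 3 ∧
    |S q 1 + S q 4 - 2 ^ q / 3| ≤ 2 / 3 ∧ |S q 2 + S q 5 - 2 ^ q / 3| ≤ 2 / 3 := by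
  induction q with
  | zero =>
    simp only [S_zero]
    norm_num
  | succ q ih =>
    obtain ⟨h0, h1, h2⟩ := ih
    have ht := total q
    simp only [S_succ]
    have e1 : S q (1 + 5) = S q 0 := S_congr q rfl
    have e2 : S q (2 + 5) = S q 1 := S_congr q rfl
    have e3 : S q (3 + 5) = S q 2 := S_congr q rfl
    have e4 : S q (4 + 5) = S q 3 := S_congr q rfl
    have e5 : S q (5 + 5) = S q 4 := S_congr q rfl
    rw [e1, e2, e3, e4, e5, zero_add, pow_succ]
    rw [abs_le] at h0 h1 h2 ⊢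
    refine ⟨⟨by linarith, by linarith⟩, ?_, ?_⟩
    · rw [abs_le]; exact ⟨by linarith, by linarith⟩
    · rw [abs_le]; exact ⟨by linarith, by linarith⟩

theorem odd_part (q : ℕ) :
    (q = 0 ∨ (S q 0 - S q 3) - (S q 1 - S q 4) + (S q 2 - S q 5) = 0) ∧
    (S q 0 - S q 3) ^ 2 + (S q 1 - S q 4) ^ 2 + (S q 2 - S q 5) ^ 2 ≤ 3 ^ q := by
  induction q with
  | zero => simp [S_zero]
  | succ q ih =>
    obtain ⟨h0, h1⟩ := ih
    simp only [S_succ]
    have e1 : S q (1 + 5) = S q 0 := S_congr q rfl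
    have e2 : S q (2 + 5) = S q 1 := S_congr q rfl
    have e3 : S q (3 + 5) = S q 2 := S_congr q rfl
    have e4 : S q (4 + 5) = S q 3 := S_congr q rfl
    have e5 : S q (5 + 5) = S q 4 := S_congr q rfl
    rw [e1, e2, e3, e4, e5, zero_add]
    refine ⟨Or.inr (by ring), ?_⟩
    rcases h0 with h0 | h0
    · subst h0
      simp [S_zero]
      norm_num
    · set x := S q 0 - S q 3 with hx
      set y := S q 1 - S q 4 with hy
      set z := S q 2 - S q 5 with hz
      have a1 : S q 0 + S q 5 - (S q 3 + S q 2) = x - z := by rw [hx, hz]; ring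
      have a2 : S q 1 + S q 0 - (S q 4 + S q 3) = y + x := by rw [hx, hy]; ring
      have a3 : S q 2 + S q 1 - (S q 5 + S q 4) = z + y := by rw [hy, hz]; ring
      rw [a1, a2, a3, pow_succ 3 q]
      have hyy : y = x + z := by linarith
      have e : (x - z) ^ 2 + (y + x) ^ 2 + (z + y) ^ 2 = 3 * (x ^ 2 + y ^ 2 + z ^ 2) := by
        rw [hyy]; ring
      rw [e]
      linarith

end FilAux

open FilAux

theorem fil : FilStm := by
  intro q r
  rw [Finset.sum_filter]
  change S q r ≤ _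
  rw [← S_mod]
  have hs3 : (Real.sqrt 3 ^ q) ^ 2 = 3 ^ q := by
    rw [← pow_mul, mul_comm, pow_mul, Real.sq_sqrt (by norm_num)]
  have hs1 : 1 ≤ Real.sqrt 3 ^ q := by
    apply one_le_pow₀
    rw [Real.one_le_sqrt]; norm_num
  obtain ⟨h0, h1, h2⟩ := even_part q
  obtain ⟨-, h3⟩ := odd_part q
  have hD : ∀ d : ℝ, d ^ 2 ≤ 3 ^ q → |d| ≤ Real.sqrt 3 ^ q := by
    intro d hd
    refine abs_le_of_sq_le_sq ?_ (by positivity)
    rw [hs3]; exact hd
  have hx := hD (S q 0 - S q 3) (by nlinarith [sq_nonneg (S q 1 - S q 4), sq_nonneg (S q 2 - S q 5)])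
  have hy := hD (S q 1 - S q 4) (by nlinarith [sq_nonneg (S q 0 - S q 3), sq_nonneg (S q 2 - S q 5)])
  have hz := hD (S q 2 - S q 5) (by nlinarith [sq_nonneg (S q 1 - S q 4), sq_nonneg (S q 0 - S q 3)])
  rw [abs_le] at h0 h1 h2 hx hy hz
  have hr : r % 6 < 6 := Nat.mod_lt _ (by norm_num)
  generalize r % 6 = k at hr
  interval_cases k <;> linarith [h0.1, h0.2, h1.1, h1.2, h2.1, h2.2, hx.1, hx.2, hy.1, hy.2, hz.1, hz.2]

end Pool.CM6
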