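import Pool.Agent.H897.CM6.Stm

namespace Pool.CM6

/-- `R(3,q)`: the largest size of a covering family in `Z_3^q`. -/
noncomputable def R3 (q : ℕ) : ℕ :=
  sSup {r : ℕ | ∃ F : Finset (Fin q → ZMod 3), IsCovering F ∧ F.card = r}

theorem main_of (hU : UpStm) (hS : SumStm) (hR : RedStm) (hL : LowStm) (hF : FilStm) :
    ∀ q : ℕ, 1 ≤ q → q.choose (q / 2 + 1) ≤ R3 q ∧
      R3 q ≤ ∑ i ∈ (Finset.range (q + 1)).filter (fun i => i % 6 = (q / 2 + 1) % 6), q.choose i ∧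
      (R3 q : ℝ) ≤ 2 ^ q / 6 + (Real.sqrt 3) ^ q := by
  have hbd : ∀ q : ℕ, 1 ≤ q → ∀ F : Finset (Fin q → ZMod 3), IsCovering F → F.card ≤
      ∑ i ∈ (Finset.range (q + 1)).filter (fun i => i % 6 = (q / 2 + 1) % 6), q.choose i := by
    intro q hq F hF
    obtain ⟨n, rfl⟩ : ∃ n, q = n + 1 := ⟨q - 1, by omega⟩
    obtain ⟨G, hG, hc⟩ := hR n F hF
    rw [← hc]
    exact (hU n G hG).trans (hS n)
  have hne : ∀ q : ℕ, {r : ℕ | ∃ F : Finset (Fin q → ZMod 3), IsCovering F ∧ F.card = r}.Nonempty := by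
    intro q
    exact ⟨0, ∅, by intro u hu; simp at hu, rfl⟩
  have hab : ∀ q : ℕ, BddAbove {r : ℕ | ∃ F : Finset (Fin q → ZMod 3), IsCovering F ∧ F.card = r} := by
    intro q
    refine ⟨Fintype.card (Fin q → ZMod 3), ?_⟩
    rintro r ⟨F, -, rfl⟩
    exact Finset.card_le_univ F
  intro q hq
  have hup : R3 q ≤
      ∑ i ∈ (Finset.range (q + 1)).filter (fun i => i % 6 = (q / 2 + 1) % 6), q.choose i := by
    refine csSup_le (hne q) ?_
    rintro r ⟨F, hF, rfl⟩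
    exact hbd q hq F hF
  have hlow : q.choose (q / 2 + 1) ≤ R3 q := by
    obtain ⟨F, hF, hc⟩ := hL q
    exact le_csSup (hab q) ⟨F, hF, hc⟩
  refine ⟨hlow, hup, ?_⟩
  have h2 := hF q (q / 2 + 1)
  have h3 : (R3 q : ℝ) ≤ ((∑ i ∈ (Finset.range (q + 1)).filter
      (fun i => i % 6 = (q / 2 + 1) % 6), q.choose i : ℕ) : ℝ) := by exact_mod_cast hup
  refine h3.trans ?_
  push_cast
  exact h2

end Pool.CM6
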