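import Pool.Agent.H897.CM6.Stm

namespace Pool.CM6

theorem red : Pool.CM6.RedStm := by
  intro n F hF
  let phi : (Fin (n + 1) → ZMod 3) → (Fin n → ZMod 3) :=
    fun u k => u k.castSucc - u (Fin.last n)
  have key : ∀ u ∈ F, ∀ v ∈ F, u ≠ v → ∀ d : ZMod 3, d ≠ 0 → ∃ k, phi u k - phi v k = d := by
    intro u hu v hv huv d hd
    obtain ⟨k, hk⟩ := hF u hu v hv huv (u (Fin.last n) - v (Fin.last n) + d)
    rcases Fin.eq_castSucc_or_eq_last k with ⟨j, rfl⟩ | rfl
    · refine ⟨j, ?_⟩
      show u j.castSucc - u (Fin.last n) - (v j.castSucc - v (Fin.last n)) = d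
      linear_combination hk
    · exfalso
      apply hd
      linear_combination -hk
  have h1 : (1 : ZMod 3) ≠ 0 := by decide
  have h2 : (2 : ZMod 3) ≠ 0 := by decide
  have hinj : Set.InjOn phi (F : Set (Fin (n + 1) → ZMod 3)) := by
    intro u hu v hv he
    by_contra huv
    obtain ⟨k, hk⟩ := key u hu v hv huv 1 h1
    rw [he, sub_self] at hk
    exact h1 hk.symm
  classical
  refine ⟨F.image phi, ?_, Finset.card_image_of_injOn hinj⟩
  intro x hx y hy hxy
  obtain ⟨u, hu, rfl⟩ := Finset.mem_image.1 hx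
  obtain ⟨v, hv, rfl⟩ := Finset.mem_image.1 hy
  have huv : u ≠ v := fun h => hxy (by rw [h])
  exact ⟨key u hu v hv huv 1 h1, key u hu v hv huv 2 h2⟩

theorem low : Pool.CM6.LowStm := by
  intro q
  classical
  let ind : Finset (Fin q) → (Fin q → ZMod 3) := fun S k => if k ∈ S then (1 : ZMod 3) else 0
  have hinj : Function.Injective ind := by
    intro S T h
    ext k
    have h1 : ind S k = ind T k := by rw [h]
    have h2 : (if k ∈ S then (1 : ZMod 3) else 0) = if k ∈ T then (1 : ZMod 3) else 0 := h1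
    by_cases hS : k ∈ S
    · by_cases hT : k ∈ T
      · exact ⟨fun _ => hT, fun _ => hS⟩
      · rw [if_pos hS, if_neg hT] at h2
        exact absurd h2 (by decide)
    · by_cases hT : k ∈ T
      · rw [if_neg hS, if_pos hT] at h2
        exact absurd h2 (by decide)
      · exact ⟨fun h => absurd h hS, fun h => absurd h hT⟩
  refine ⟨(Finset.powersetCard (q / 2 + 1) (Finset.univ : Finset (Fin q))).image ind, ?_, ?_⟩
  · intro u hu v hv huv c
    obtain ⟨S, hS, rfl⟩ := Finset.mem_image.1 hu
    obtain ⟨T, hT, rfl⟩ := Finset.mem_image.1 hv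
    rw [Finset.mem_powersetCard] at hS hT
    have hST : S ≠ T := fun h => huv (by rw [h])
    have h1 : ¬ S ⊆ T := fun h => hST (Finset.eq_of_subset_of_card_le h (by omega))
    have h2 : ¬ T ⊆ S := fun h => hST (Finset.eq_of_subset_of_card_le h (by omega)).symm
    have h3 : (S ∩ T).Nonempty := by
      refine Finset.inter_nonempty_of_card_lt_card_add_card (s := Finset.univ)
        (Finset.subset_univ _) (Finset.subset_univ _) ?_
      rw [Finset.card_univ, Fintype.card_fin, hS.2, hT.2]
      omega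
    obtain ⟨x, hx1, hx2⟩ := Finset.not_subset.1 h1
    obtain ⟨y, hy1, hy2⟩ := Finset.not_subset.1 h2
    obtain ⟨z, hz⟩ := h3
    rw [Finset.mem_inter] at hz
    have hc : c = 0 ∨ c = 1 ∨ c = 2 := by
      revert c
      decide
    rcases hc with rfl | rfl | rfl
    · refine ⟨z, ?_⟩
      show (if z ∈ S then (1 : ZMod 3) else 0) - (if z ∈ T then (1 : ZMod 3) else 0) = 0
      rw [if_pos hz.1, if_pos hz.2]
      decide
    · refine ⟨x, ?_⟩
      show (if x ∈ S then (1 : ZMod 3) else 0) - (if x ∈ T then (1 : ZMod 3) else 0) = 1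
      rw [if_pos hx1, if_neg hx2]
      decide
    · refine ⟨y, ?_⟩
      show (if y ∈ S then (1 : ZMod 3) else 0) - (if y ∈ T then (1 : ZMod 3) else 0) = 2
      rw [if_neg hy2, if_pos hy1]
      decide
  · rw [Finset.card_image_of_injective _ hinj, Finset.card_powersetCard, Finset.card_univ,
      Fintype.card_fin]

end Pool.CM6
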