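import Mathlib

namespace Pool.CM6

/-- A covering family of vectors over `Z_3`: the difference of any two distinct members takes
every value of `Z_3` in some coordinate. -/
def IsCovering {q : ℕ} (F : Finset (Fin q → ZMod 3)) : Prop :=
  ∀ u ∈ F, ∀ v ∈ F, u ≠ v → ∀ c : ZMod 3, ∃ k, u k - v k = c

/-- Differences of distinct members contain both `1` and `2`. -/
def Both12 {n : ℕ} (F : Finset (Fin n → ZMod 3)) : Prop :=
  ∀ u ∈ F, ∀ v ∈ F, u ≠ v → (∃ k, u k - v k = 1) ∧ (∃ k, u k - v k = 2)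

/-- CM6-UP -/
def UpStm : Prop := ∀ (n : ℕ) (F : Finset (Fin n → ZMod 3)), Both12 F →
  F.card ≤ ∑ j ∈ (Finset.range (n + 1)).filter
    (fun j => j % 6 = ((n + 1) / 2) % 6 ∨ j % 6 = ((n + 1) / 2 + 1) % 6), n.choose j

/-- CM6-SUM -/
def SumStm : Prop := ∀ n : ℕ,
  ∑ j ∈ (Finset.range (n + 1)).filter
    (fun j => j % 6 = ((n + 1) / 2) % 6 ∨ j % 6 = ((n + 1) / 2 + 1) % 6), n.choose j ≤
  ∑ i ∈ (Finset.range (n + 2)).filter (fun i => i % 6 = ((n + 1) / 2 + 1) % 6), (n + 1).choose i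

/-- CM6-RED -/
def RedStm : Prop := ∀ (n : ℕ) (F : Finset (Fin (n + 1) → ZMod 3)), IsCovering F →
  ∃ G : Finset (Fin n → ZMod 3), Both12 G ∧ G.card = F.card

/-- CM6-LOW -/
def LowStm : Prop := ∀ q : ℕ,
  ∃ F : Finset (Fin q → ZMod 3), IsCovering F ∧ F.card = q.choose (q / 2 + 1)

/-- CM6-FIL -/
def FilStm : Prop := ∀ q r : ℕ,
  (∑ i ∈ (Finset.range (q + 1)).filter (fun i => i % 6 = r % 6), (q.choose i : ℝ)) ≤
    2 ^ q / 6 + (Real.sqrt 3) ^ q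

end Pool.CM6
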