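import Pool.Agent.H897.CM6.Stm

namespace Pool.CM6

theorem sum_main : Pool.CM6.SumStm := by
  intro n
  generalize (n + 1) / 2 = h
  rw [Finset.sum_filter, Finset.sum_filter]
  have e1 : ∑ i ∈ Finset.range (n + 2), (if i % 6 = (h + 1) % 6 then (n + 1).choose i else 0) =
      ∑ j ∈ Finset.range (n + 1), (if j % 6 = h % 6 then n.choose j else 0) +
        ∑ j ∈ Finset.range (n + 1), (if j % 6 = (h + 1) % 6 then n.choose j else 0) := by
    rw [Finset.sum_range_succ']
    have e2 : ∀ j, (if (j + 1) % 6 = (h + 1) % 6 then (n + 1).choose (j + 1) else 0) =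
        (if j % 6 = h % 6 then n.choose j else 0) +
          (if (j + 1) % 6 = (h + 1) % 6 then n.choose (j + 1) else 0) := by
      intro j
      by_cases hj : j % 6 = h % 6
      · rw [if_pos hj, if_pos (by omega), if_pos (by omega), Nat.choose_succ_succ]
      · rw [if_neg hj, if_neg (by omega), if_neg (by omega)]
    simp only [e2]
    rw [Finset.sum_add_distrib, add_assoc]
    congr 1
    have e3 := Finset.sum_range_succ'
      (fun i => if i % 6 = (h + 1) % 6 then n.choose i else 0) (n + 1)
    rw [Finset.sum_range_succ] at e3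
    simp only [Nat.choose_succ_self, ite_self, add_zero] at e3
    rw [e3]
    simp only [Nat.choose_zero_right]
  rw [e1, ← Finset.sum_add_distrib]
  refine Finset.sum_le_sum fun j _ => ?_
  by_cases h1 : j % 6 = h % 6
  · by_cases h2 : j % 6 = (h + 1) % 6
    · omega
    · rw [if_pos (Or.inl h1), if_pos h1, if_neg h2]
      omega
  · by_cases h2 : j % 6 = (h + 1) % 6
    · rw [if_pos (Or.inr h2), if_neg h1, if_pos h2]
      omega
    · rw [if_neg (by omega)]
      exact Nat.zero_le _

end Pool.CM6
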