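import Pool.Agent.H897.CM6.Stm

open Finset

namespace Pool.CM6

noncomputable section

/-- the character -/
def ψ : AddChar (ZMod 3) ℂ := ZMod.stdAddChar

/-- the cube root of unity -/
def w : ℂ := ψ 1

theorem w_ne : w ≠ 1 := by
  intro h
  have : (1 : ZMod 3) = 0 := by
    apply ZMod.injective_stdAddChar (N := 3)
    rw [AddChar.map_zero_eq_one]
    exact h
  exact absurd this (by decide)

theorem w_cube : w ^ 3 = 1 := by
  unfold w
  rw [← AddChar.map_nsmul_eq_pow]
  have : (3 : ℕ) • (1 : ZMod 3) = 0 := by decide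
  rw [this, AddChar.map_zero_eq_one]

theorem w_quad : w ^ 2 + w + 1 = 0 := by
  have h : (w - 1) * (w ^ 2 + w + 1) = 0 := by linear_combination w_cube
  exact (mul_eq_zero.1 h).resolve_left (sub_ne_zero.2 w_ne)

theorem w_ne_zero : w ≠ 0 := by
  intro h
  have := w_cube
  rw [h] at this
  norm_num at this

theorem ψ_two : ψ 2 = w ^ 2 := by
  unfold w
  rw [← AddChar.map_nsmul_eq_pow]
  have : (2 : ℕ) • (1 : ZMod 3) = 2 := by decide
  rw [this]

/-- the six periodic sequence -/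
def tt (j : ℕ) : ℝ :=
  if j % 6 = 0 ∨ j % 6 = 1 then 1 else if j % 6 = 2 ∨ j % 6 = 5 then 0 else -1

theorem tt_rec (j : ℕ) : tt (j + 2) = tt (j + 1) - tt j := by
  unfold tt
  have h : j % 6 = 0 ∨ j % 6 = 1 ∨ j % 6 = 2 ∨ j % 6 = 3 ∨ j % 6 = 4 ∨ j % 6 = 5 := by omega
  rcases h with h | h | h | h | h | h <;> norm_num [Nat.add_mod, h]

theorem tt_eq (j : ℕ) : (1 - w) * (tt j : ℂ) = -w * (-w ^ 2) ^ j + (-w) ^ j := by
  induction j using Nat.twoStepInduction with
  | zero => simp [tt]; ring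
  | one =>
    simp [tt]
    linear_combination -w_cube
  | more j h1 h2 =>
    rw [tt_rec]
    push_cast
    have e1 : (-w ^ 2) ^ (j + 2) = (-w ^ 2) ^ (j + 1) - (-w ^ 2) ^ j := by
      rw [pow_add, pow_add]
      linear_combination (-w ^ 2) ^ j * (w * w_cube + w_quad)
    have e2 : (-w) ^ (j + 2) = (-w) ^ (j + 1) - (-w) ^ j := by
      rw [pow_add, pow_add]
      linear_combination (-w) ^ j * w_quad
    rw [e1, e2]
    linear_combination h2 - h1

/-- the exponent -/
def LL {n : ℕ} (u : Fin n → ZMod 3) (S : Finset (Fin n)) : ZMod 3 := ∑ k ∈ S, u k - ∑ k ∈ Sᶜ, u k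

theorem LL_sub {n : ℕ} (u v : Fin n → ZMod 3) (S : Finset (Fin n)) :
    LL (u - v) S = LL u S - LL v S := by
  unfold LL
  simp only [Pi.sub_apply, sum_sub_distrib]
  ring

theorem ψ_sum {n : ℕ} (S : Finset (Fin n)) (f : Fin n → ZMod 3) :
    ψ (∑ k ∈ S, f k) = ∏ k ∈ S, ψ (f k) := by
  classical
  induction S using Finset.induction_on with
  | empty => simp
  | insert a S ha ih => rw [sum_insert ha, prod_insert ha, AddChar.map_add_eq_mul, ih]

theorem gen {n : ℕ} (r : ℂ) (d : Fin n → ZMod 3) :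
    ∑ S : Finset (Fin n), r ^ S.card * ψ (LL d S) = ∏ k, (r * ψ (d k) + ψ (-d k)) := by
  rw [Finset.prod_add, Finset.powerset_univ]
  refine Finset.sum_congr rfl (fun S _ => ?_)
  rw [Finset.prod_mul_distrib, Finset.prod_const, LL, sub_eq_add_neg, AddChar.map_add_eq_mul,
    ← Finset.sum_neg_distrib, ψ_sum, ψ_sum, ← Finset.compl_eq_univ_sdiff, mul_assoc]

/-- the kernel -/
def Lam {n : ℕ} (d : Fin n → ZMod 3) : ℂ :=
  ∑ S : Finset (Fin n), (tt (S.card + 5 * ((n + 1) / 2)) : ℂ) * ψ (LL d S)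

theorem Lam_eq {n : ℕ} (d : Fin n → ZMod 3) :
    (1 - w) * Lam d = -w * (-w ^ 2) ^ (5 * ((n + 1) / 2)) * ∏ k, ((-w ^ 2) * ψ (d k) + ψ (-d k)) +
      (-w) ^ (5 * ((n + 1) / 2)) * ∏ k, ((-w) * ψ (d k) + ψ (-d k)) := by
  rw [← gen, ← gen, Lam, mul_sum, mul_sum, mul_sum, ← sum_add_distrib]
  refine sum_congr rfl (fun S _ => ?_)
  rw [← mul_assoc, tt_eq, pow_add, pow_add]
  ring

theorem Lam_zero_of {n : ℕ} (d : Fin n → ZMod 3) (h1 : ∃ k, d k = 1) (h2 : ∃ k, d k = 2) :
    Lam d = 0 := by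
  obtain ⟨k1, hk1⟩ := h1
  obtain ⟨k2, hk2⟩ := h2
  have e1 : ∏ k, ((-w ^ 2) * ψ (d k) + ψ (-d k)) = 0 := by
    refine prod_eq_zero (mem_univ k2) ?_
    have : (-2 : ZMod 3) = 1 := by decide
    rw [hk2, this, ψ_two]
    show -w ^ 2 * w ^ 2 + w = 0
    linear_combination -w * w_cube
  have e2 : ∏ k, ((-w) * ψ (d k) + ψ (-d k)) = 0 := by
    refine prod_eq_zero (mem_univ k1) ?_
    have : (-1 : ZMod 3) = 2 := by decide
    rw [hk1, this, ψ_two]
    show -w * w + w ^ 2 = 0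
    ring
  have := Lam_eq d
  rw [e1, e2, mul_zero, mul_zero, add_zero] at this
  exact (mul_eq_zero.1 this).resolve_left (sub_ne_zero.2 (Ne.symm w_ne))

theorem N_eq (n : ℕ) : -w * (-w ^ 2) ^ (5 * ((n + 1) / 2)) * (-w ^ 2 + 1) ^ n +
    (-w) ^ (5 * ((n + 1) / 2)) * (-w + 1) ^ n = (1 - w) * 3 ^ (n / 2) := by
  induction n using Nat.twoStepInduction with
  | zero => simp; ring
  | one =>
    norm_num
    have h3 := w_cube
    have h2 := w_quad
    linear_combination (-w ^ 10 - w ^ 7 - w ^ 4 - w + w ^ 8 + w ^ 5 + w ^ 2 + w ^ 3 + 1 - w ^ 2) * h3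
  | more n h1 _ =>
    have a1 : (n + 2 + 1) / 2 = (n + 1) / 2 + 1 := by omega
    have a2 : (n + 2) / 2 = n / 2 + 1 := by omega
    rw [a1, a2, mul_add, pow_add, pow_add, pow_add, pow_add, pow_add]
    have b1 : (-w ^ 2) ^ (5 * 1) * (-w ^ 2 + 1) ^ 2 = 3 := by
      have h10 : (-w ^ 2) ^ (5 * 1) = -w := by
        have : (-w ^ 2) ^ (5 * 1) = -(w ^ 3) ^ 3 * w := by ring
        rw [this, w_cube]; ring
      rw [h10]
      linear_combination (2 - w ^ 2) * w_cube - w_quad
    have b2 : (-w) ^ (5 * 1) * (-w + 1) ^ 2 = 3 := by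
      have h5 : (-w) ^ (5 * 1) = -w ^ 2 := by
        have : (-w) ^ (5 * 1) = -(w ^ 3) * w ^ 2 := by ring
        rw [this, w_cube]; ring
      rw [h5]
      linear_combination (2 - w) * w_cube - w_quad
    linear_combination 3 * h1 + (-w * (-w ^ 2) ^ (5 * ((n + 1) / 2)) * (-w ^ 2 + 1) ^ n) * b1 +
      ((-w) ^ (5 * ((n + 1) / 2)) * (-w + 1) ^ n) * b2

theorem Lam_zero {n : ℕ} : Lam (0 : Fin n → ZMod 3) = ((3 ^ (n / 2) : ℝ) : ℂ) := by
  have h := Lam_eq (0 : Fin n → ZMod 3)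
  simp only [Pi.zero_apply, neg_zero, AddChar.map_zero_eq_one, mul_one, prod_const, card_univ,
    Fintype.card_fin] at h
  rw [N_eq] at h
  have := mul_left_cancel₀ (sub_ne_zero.2 (Ne.symm w_ne)) h
  rw [this]
  push_cast
  rfl

theorem tt_le {j m : ℕ} (h : ¬ (j % 6 = m % 6 ∨ j % 6 = (m + 1) % 6)) : tt (j + 5 * m) ≤ 0 := by
  unfold tt
  rw [if_neg (by omega)]
  split_ifs <;> norm_num

theorem card_P (n : ℕ) : (univ.filter (fun S : Finset (Fin n) =>
    S.card % 6 = ((n + 1) / 2) % 6 ∨ S.card % 6 = ((n + 1) / 2 + 1) % 6)).card =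
    ∑ j ∈ (range (n + 1)).filter
      (fun j => j % 6 = ((n + 1) / 2) % 6 ∨ j % 6 = ((n + 1) / 2 + 1) % 6), n.choose j := by
  rw [Finset.card_eq_sum_card_fiberwise (f := Finset.card) (t := (range (n + 1)).filter
      (fun j => j % 6 = ((n + 1) / 2) % 6 ∨ j % 6 = ((n + 1) / 2 + 1) % 6))]
  · refine sum_congr rfl (fun j hj => ?_)
    rw [mem_filter] at hj
    have : ((univ.filter (fun S : Finset (Fin n) =>
        S.card % 6 = ((n + 1) / 2) % 6 ∨ S.card % 6 = ((n + 1) / 2 + 1) % 6)).filter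
        (fun S => S.card = j)) = powersetCard j univ := by
      ext S
      simp only [mem_filter, mem_univ, true_and, mem_powersetCard, subset_univ]
      constructor
      · exact fun h => h.2
      · intro h
        rw [h]
        exact ⟨hj.2, rfl⟩
    rw [this, card_powersetCard, card_univ, Fintype.card_fin]
  · intro S hS
    simp only [coe_filter, mem_univ, true_and, mem_range] at hS ⊢
    refine ⟨Nat.lt_succ_of_le ?_, hS⟩
    have := card_le_univ S
    rwa [Fintype.card_fin] at this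

open ComplexConjugate in
theorem up : UpStm := by
  classical
  intro n F hF
  rw [← card_P n]
  by_contra hcon
  push Not at hcon
  obtain ⟨P, hP⟩ : ∃ P : Finset (Finset (Fin n)), P = univ.filter (fun S : Finset (Fin n) =>
    S.card % 6 = ((n + 1) / 2) % 6 ∨ S.card % 6 = ((n + 1) / 2 + 1) % 6) := ⟨_, rfl⟩
  rw [← hP] at hcon
  let f : (F → ℂ) →ₗ[ℂ] (P → ℂ) :=
    LinearMap.pi (fun S => ∑ u : F, (ψ (LL u.1 S.1)) • LinearMap.proj u)
  have hk : LinearMap.ker f ≠ ⊥ := LinearMap.ker_ne_bot_of_finrank_lt (by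
    rw [Module.finrank_fintype_fun_eq_card, Module.finrank_fintype_fun_eq_card,
      Fintype.card_coe, Fintype.card_coe]
    exact hcon)
  obtain ⟨c, hc, hc0⟩ := (Submodule.ne_bot_iff _).1 hk
  have hc' : ∀ S ∈ P, ∑ u : F, c u * ψ (LL u.1 S) = 0 := by
    intro S hS
    have h1 := congrFun (LinearMap.mem_ker.1 hc) ⟨S, hS⟩
    simp only [f, LinearMap.pi_apply, LinearMap.sum_apply, LinearMap.smul_apply,
      LinearMap.proj_apply, smul_eq_mul, Pi.zero_apply] at h1
    rw [← h1]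
    exact sum_congr rfl (fun u _ => mul_comm _ _)
  obtain ⟨V, hVd⟩ : ∃ V : Finset (Fin n) → ℂ, ∀ S, V S = ∑ u : F, c u * ψ (LL u.1 S) :=
    ⟨_, fun S => rfl⟩
  have hV : ∀ S, V S * conj (V S) =
      ∑ u : F, ∑ v : F, c u * conj (c v) * ψ (LL (u.1 - v.1) S) := by
    intro S
    rw [hVd, map_sum, sum_mul_sum]
    refine sum_congr rfl (fun u _ => sum_congr rfl (fun v _ => ?_))
    rw [map_mul, LL_sub, sub_eq_add_neg, AddChar.map_add_eq_mul, AddChar.map_neg_eq_conj]
    ring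
  have key : ∑ S : Finset (Fin n), (tt (S.card + 5 * ((n + 1) / 2)) : ℂ) * (V S * conj (V S)) =
      Lam (0 : Fin n → ZMod 3) * ∑ u : F, c u * conj (c u) := by
    have e1 : ∑ S : Finset (Fin n), (tt (S.card + 5 * ((n + 1) / 2)) : ℂ) * (V S * conj (V S)) =
        ∑ u : F, ∑ v : F, c u * conj (c v) * Lam (u.1 - v.1) := by
      calc ∑ S : Finset (Fin n), (tt (S.card + 5 * ((n + 1) / 2)) : ℂ) * (V S * conj (V S))
          = ∑ S : Finset (Fin n), ∑ u : F, ∑ v : F, c u * conj (c v) *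
            ((tt (S.card + 5 * ((n + 1) / 2)) : ℂ) * ψ (LL (u.1 - v.1) S)) := by
            refine sum_congr rfl (fun S _ => ?_)
            rw [hV, mul_sum]
            refine sum_congr rfl (fun u _ => ?_)
            rw [mul_sum]
            refine sum_congr rfl (fun v _ => ?_)
            ring
        _ = ∑ u : F, ∑ S : Finset (Fin n), ∑ v : F, c u * conj (c v) *
            ((tt (S.card + 5 * ((n + 1) / 2)) : ℂ) * ψ (LL (u.1 - v.1) S)) := sum_comm
        _ = ∑ u : F, ∑ v : F, c u * conj (c v) * Lam (u.1 - v.1) := by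
            refine sum_congr rfl (fun u _ => ?_)
            rw [sum_comm]
            refine sum_congr rfl (fun v _ => ?_)
            rw [Lam, mul_sum]
    rw [e1, mul_sum]
    refine sum_congr rfl (fun u _ => ?_)
    rw [sum_eq_single u]
    · rw [sub_self]
      ring
    · intro v _ hvu
      have hne : u.1 ≠ v.1 := fun h => hvu (Subtype.ext h.symm)
      obtain ⟨h1, h2⟩ := hF u.1 u.2 v.1 v.2 hne
      rw [Lam_zero_of (u.1 - v.1) h1 h2, mul_zero]
    · intro h
      exact absurd (mem_univ u) h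
  simp only [Complex.mul_conj] at key
  rw [Lam_zero] at key
  have key2 : ∑ S : Finset (Fin n), tt (S.card + 5 * ((n + 1) / 2)) * Complex.normSq (V S) =
      3 ^ (n / 2) * ∑ u : F, Complex.normSq (c u) := by
    exact_mod_cast key
  have hle : ∑ S : Finset (Fin n), tt (S.card + 5 * ((n + 1) / 2)) * Complex.normSq (V S) ≤ 0 := by
    refine sum_nonpos (fun S _ => ?_)
    by_cases hS : S ∈ P
    · rw [hVd, hc' S hS]
      simp
    · refine mul_nonpos_of_nonpos_of_nonneg (tt_le ?_) (Complex.normSq_nonneg _)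
      rw [hP] at hS
      simpa using hS
  have hpos : 0 < ∑ u : F, Complex.normSq (c u) := by
    have : ∃ u, c u ≠ 0 := by
      by_contra h
      push Not at h
      exact hc0 (funext h)
    obtain ⟨u, hu⟩ := this
    exact sum_pos' (fun v _ => Complex.normSq_nonneg _) ⟨u, mem_univ u, Complex.normSq_pos.2 hu⟩
  have : 0 < (3 : ℝ) ^ (n / 2) * ∑ u : F, Complex.normSq (c u) := by positivity
  linarith

end

end Pool.CM6
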