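import Pool.Agent.H897.CM6.Stm

open Finset Complex

namespace Pool.CM6

noncomputable section

/-- primitive cube root of unity -/
def w : ℂ := ⟨-1/2, Real.sqrt 3 / 2⟩

lemma w_sq : w ^ 2 = -1 - w := by
  have h3 : Real.sqrt 3 * Real.sqrt 3 = 3 := Real.mul_self_sqrt (by norm_num)
  apply Complex.ext
  · simp only [pow_two, w, Complex.mul_re, Complex.sub_re, Complex.neg_re, Complex.one_re]
    nlinarith
  · simp only [pow_two, w, Complex.mul_im, Complex.sub_im, Complex.neg_im, Complex.one_im]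
    ring

lemma w_cube : w ^ 3 = 1 := by
  have : w ^ 3 = w * w ^ 2 := by ring
  rw [this, w_sq]
  have h := w_sq
  linear_combination (-1 : ℂ) * h

lemma conj_w : (starRingEnd ℂ) w = w ^ 2 := by
  rw [w_sq]
  apply Complex.ext <;> simp [w] <;> ring

lemma one_sub_w_ne : (1 : ℂ) - w ≠ 0 := by
  intro h
  have := congrArg Complex.re h
  simp [w] at this
  norm_num at this

def e (a : ZMod 3) : ℂ := w ^ a.val

lemma e_zero : e 0 = 1 := by simp [e]
lemma e_one : e 1 = w := by
  have : (1 : ZMod 3).val = 1 := rfl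
  simp [e, this]
lemma e_two : e 2 = w ^ 2 := by
  have : (2 : ZMod 3).val = 2 := rfl
  simp [e, this]

lemma e_sub (a b : ZMod 3) : e (a - b) = e a * (starRingEnd ℂ) (e b) := by
  have hc := w_cube
  have key : ∀ a b : ZMod 3, e (a - b) = e a * ((starRingEnd ℂ) w) ^ b.val := by
    intro a b
    rw [conj_w]
    fin_cases a <;> fin_cases b <;>
      first
      | (show w ^ 0 = w ^ 0 * (w ^ 2) ^ 0; ring)
      | (show w ^ 2 = w ^ 0 * (w ^ 2) ^ 1; ring)
      | (show w ^ 1 = w ^ 0 * (w ^ 2) ^ 2; linear_combination (-w) * hc)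
      | (show w ^ 1 = w ^ 1 * (w ^ 2) ^ 0; ring)
      | (show w ^ 0 = w ^ 1 * (w ^ 2) ^ 1; linear_combination (-1 : ℂ) * hc)
      | (show w ^ 2 = w ^ 1 * (w ^ 2) ^ 2; linear_combination (-w ^ 2) * hc)
      | (show w ^ 2 = w ^ 2 * (w ^ 2) ^ 0; ring)
      | (show w ^ 1 = w ^ 2 * (w ^ 2) ^ 1; linear_combination (-w) * hc)
      | (show w ^ 0 = w ^ 2 * (w ^ 2) ^ 2; linear_combination (-(w ^ 3 + 1)) * hc)
  rw [key, e, e, map_pow]

def rho : ℂ := - w ^ 2
def rhob : ℂ := - w

lemma rho_sq : rho ^ 2 = rho - 1 := by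
  have h := w_sq
  simp only [rho]
  linear_combination (w ^ 2 - w + 1) * h

lemma rhob_sq : rhob ^ 2 = rhob - 1 := by
  have h := w_sq
  simp only [rhob]
  linear_combination h

def A : ℂ := - w / (1 - w)
def B : ℂ := 1 / (1 - w)

lemma A_add_B : A + B = 1 := by
  simp only [A, B]
  field_simp [one_sub_w_ne]
  ring

lemma A_rho : A * rho + B * rhob = 1 := by
  have h := w_cube
  have h1 := one_sub_w_ne
  simp only [A, B, rho, rhob]
  rw [div_mul_eq_mul_div, div_mul_eq_mul_div, ← add_div, div_eq_one_iff_eq h1]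
  linear_combination h

/-- x(N) = A ρ^N + B ρb^N -/
def x (N : ℕ) : ℂ := A * rho ^ N + B * rhob ^ N

lemma x_zero : x 0 = 1 := by simp [x, A_add_B]
lemma x_one : x 1 = 1 := by simp [x, A_rho]
lemma x_rec (N : ℕ) : x (N + 2) = x (N + 1) - x N := by
  have h1 := rho_sq
  have h2 := rhob_sq
  simp only [x, pow_add, pow_one]
  linear_combination (A * rho ^ N) * h1 + (B * rhob ^ N) * h2

lemma x_six (N : ℕ) : x (N + 6) = x N := by
  rw [x_rec (N + 4), x_rec (N + 3), x_rec (N + 2), x_rec (N + 1), x_rec N]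
  ring

def t (N : ℕ) : ℝ := if N % 6 = 0 ∨ N % 6 = 1 then 1 else if N % 6 = 2 ∨ N % 6 = 5 then 0 else -1

lemma x_eq (N : ℕ) : x N = (t N : ℂ) := by
  induction N using Nat.strong_induction_on with
  | _ N ih =>
    by_cases hN : 6 ≤ N
    · obtain ⟨M, rfl⟩ := Nat.exists_eq_add_of_le' hN
      rw [x_six, ih M (by omega)]
      congr 1
      simp [t, Nat.add_mod_right]
    · have h2 : x 2 = 0 := by rw [x_rec 0, x_zero, x_one]; ring
      have h3 : x 3 = -1 := by rw [x_rec 1, h2, x_one]; ring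
      have h4 : x 4 = -1 := by rw [x_rec 2, h3, h2]; ring
      have h5 : x 5 = 0 := by rw [x_rec 3, h4, h3]; ring
      interval_cases N
      · simp [x_zero, t]
      · simp [x_one, t]
      · simp [h2, t]
      · simp [h3, t]
      · simp [h4, t]
      · simp [h5, t]

/-- single coordinate weight -/
def g (z : ℂ) (a : ZMod 3) : ℂ := if a = 0 then 0 else if a = 1 then z else 1

def chi {n : ℕ} (d y : Fin n → ZMod 3) : ℂ := ∏ k, e (d k * y k)

def ones {n : ℕ} (y : Fin n → ZMod 3) : ℕ := (univ.filter (fun k => y k = 1)).card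

lemma prod_g {n : ℕ} (z : ℂ) (y : Fin n → ZMod 3) :
    ∏ k, g z (y k) = if (∀ k, y k ≠ 0) then z ^ ones y else 0 := by
  split_ifs with h
  · have : ∀ k ∈ (univ : Finset (Fin n)), g z (y k) = if y k = 1 then z else 1 := by
      intro k _
      simp [g, h k]
    rw [Finset.prod_congr rfl this, Finset.prod_ite]
    simp [ones]
  · push Not at h
    obtain ⟨k, hk⟩ := h
    exact Finset.prod_eq_zero (Finset.mem_univ k) (by simp [g, hk])

lemma sum_g (n : ℕ) (z : ℂ) (d : Fin n → ZMod 3) :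
    ∑ y : Fin n → ZMod 3, (∏ k, g z (y k)) * chi d y = ∏ k, ∑ a : ZMod 3, g z a * e (d k * a) := by
  rw [Finset.prod_univ_sum]
  rw [Fintype.piFinset_univ]
  refine Finset.sum_congr rfl ?_
  intro y _
  rw [chi, ← Finset.prod_mul_distrib]

lemma sum_coord (z : ℂ) (a : ZMod 3) :
    ∑ b : ZMod 3, g z b * e (a * b) = z * e a + e (2 * a) := by
  have : (univ : Finset (ZMod 3)) = {0, 1, 2} := by decide
  rw [this, Finset.sum_insert (by decide), Finset.sum_insert (by decide), Finset.sum_singleton]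
  have h2 : (2 : ZMod 3) ≠ 0 := by decide
  have h21 : (2 : ZMod 3) ≠ 1 := by decide
  have h1 : (1 : ZMod 3) ≠ 0 := by decide
  simp [g, h2, h21, mul_comm]

/-- the weight with shift `5 m` -/
def Lc {n : ℕ} (m : ℕ) (y : Fin n → ZMod 3) : ℂ :=
  A * rho ^ (5 * m) * ∏ k, g rho (y k) + B * rhob ^ (5 * m) * ∏ k, g rhob (y k)

def r {n : ℕ} (m : ℕ) (y : Fin n → ZMod 3) : ℝ :=
  if (∀ k, y k ≠ 0) then t (ones y + 5 * m) else 0

lemma Lc_eq {n : ℕ} (m : ℕ) (y : Fin n → ZMod 3) : Lc m y = (r m y : ℂ) := by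
  rw [Lc, prod_g, prod_g, r]
  split_ifs with h
  · rw [← x_eq, x, pow_add, pow_add]
    ring
  · simp

lemma Lc_sum (n m : ℕ) (d : Fin n → ZMod 3) :
    ∑ y : Fin n → ZMod 3, Lc m y * chi d y =
      A * rho ^ (5 * m) * ∏ k, (rho * e (d k) + e (2 * d k)) +
        B * rhob ^ (5 * m) * ∏ k, (rhob * e (d k) + e (2 * d k)) := by
  have h1 := sum_g n rho d
  have h2 := sum_g n rhob d
  simp only [sum_coord] at h1 h2
  rw [← h1, ← h2, Finset.mul_sum, Finset.mul_sum, ← Finset.sum_add_distrib]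
  refine Finset.sum_congr rfl ?_
  intro y _
  rw [Lc]
  ring

lemma fac_two : rho * e 2 + e (2 * 2) = 0 := by
  have h : (2 * 2 : ZMod 3) = 1 := by decide
  rw [h, e_two, e_one, rho]
  have := w_cube
  linear_combination (-w) * this

lemma fac_one : rhob * e 1 + e (2 * 1) = 0 := by
  have h : (2 * 1 : ZMod 3) = 2 := by decide
  rw [h, e_two, e_one, rhob]
  ring

lemma Lc_sum_vanish (n m : ℕ) (d : Fin n → ZMod 3) (h1 : ∃ k, d k = 1) (h2 : ∃ k, d k = 2) :
    ∑ y : Fin n → ZMod 3, Lc m y * chi d y = 0 := by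
  rw [Lc_sum]
  obtain ⟨k1, hk1⟩ := h1
  obtain ⟨k2, hk2⟩ := h2
  rw [Finset.prod_eq_zero (Finset.mem_univ k2) (by rw [hk2]; exact fac_two),
    Finset.prod_eq_zero (Finset.mem_univ k1) (by rw [hk1]; exact fac_one)]
  simp

lemma rho_six : rho ^ 6 = 1 := by
  have h := w_cube
  simp only [rho]
  linear_combination (w ^ 9 + w ^ 6 + w ^ 3 + 1) * h

lemma rhob_six : rhob ^ 6 = 1 := by
  have h := w_cube
  simp only [rhob]
  linear_combination (w ^ 3 + 1) * h

lemma one_add_rho_sq : (rho + 1) ^ 2 = 3 * rho := by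
  linear_combination rho_sq

lemma one_add_rhob_sq : (rhob + 1) ^ 2 = 3 * rhob := by
  linear_combination rhob_sq

lemma Lam_even (m : ℕ) :
    A * rho ^ (5 * m) * (rho + 1) ^ (2 * m) + B * rhob ^ (5 * m) * (rhob + 1) ^ (2 * m) =
      ((3 ^ m : ℝ) : ℂ) := by
  have h1 : rho ^ (5 * m) * (rho + 1) ^ (2 * m) = 3 ^ m := by
    rw [pow_mul (rho + 1), one_add_rho_sq, mul_pow, pow_mul]
    calc (rho ^ 5) ^ m * (3 ^ m * rho ^ m) = 3 ^ m * (rho ^ 6) ^ m := by
          rw [← pow_mul, ← pow_mul]; ring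
      _ = 3 ^ m := by rw [rho_six, one_pow, mul_one]
  have h2 : rhob ^ (5 * m) * (rhob + 1) ^ (2 * m) = 3 ^ m := by
    rw [pow_mul (rhob + 1), one_add_rhob_sq, mul_pow, pow_mul]
    calc (rhob ^ 5) ^ m * (3 ^ m * rhob ^ m) = 3 ^ m * (rhob ^ 6) ^ m := by
          rw [← pow_mul, ← pow_mul]; ring
      _ = 3 ^ m := by rw [rhob_six, one_pow, mul_one]
  rw [mul_assoc, mul_assoc, h1, h2, ← add_mul, A_add_B]
  push_cast
  ring

lemma odd_const : A * rhob + B * rho = 0 := by
  have h1 := one_sub_w_ne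
  simp only [A, B, rho, rhob]
  field_simp
  ring

lemma Lam_odd (m : ℕ) :
    A * rho ^ (5 * (m + 1)) * (rho + 1) ^ (2 * m + 1) +
      B * rhob ^ (5 * (m + 1)) * (rhob + 1) ^ (2 * m + 1) = ((3 ^ m : ℝ) : ℂ) := by
  have hp : rho ^ 5 = rhob := by
    have h := w_cube
    simp only [rho, rhob]
    linear_combination (-(w ^ 7 + w ^ 4 + w)) * h
  have hq : rhob ^ 5 = rho := by
    have h := w_cube
    simp only [rho, rhob]
    linear_combination (-w ^ 2) * h
  have hpr : rho * rhob = 1 := by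
    have h := w_cube
    simp only [rho, rhob]
    linear_combination h
  have h1 : rho ^ (5 * (m + 1)) * (rho + 1) ^ (2 * m + 1) = 3 ^ m * (1 + rhob) := by
    have : rho ^ (5 * m) * (rho + 1) ^ (2 * m) = 3 ^ m := by
      rw [pow_mul (rho + 1), one_add_rho_sq, mul_pow, pow_mul]
      calc (rho ^ 5) ^ m * (3 ^ m * rho ^ m) = 3 ^ m * (rho ^ 6) ^ m := by
            rw [← pow_mul, ← pow_mul]; ring
        _ = 3 ^ m := by rw [rho_six, one_pow, mul_one]
    calc rho ^ (5 * (m + 1)) * (rho + 1) ^ (2 * m + 1)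
        = (rho ^ (5 * m) * (rho + 1) ^ (2 * m)) * (rho ^ 5 * (rho + 1)) := by ring
      _ = 3 ^ m * (1 + rhob) := by rw [this, hp]; linear_combination 3 ^ m * hpr
  have h2 : rhob ^ (5 * (m + 1)) * (rhob + 1) ^ (2 * m + 1) = 3 ^ m * (1 + rho) := by
    have : rhob ^ (5 * m) * (rhob + 1) ^ (2 * m) = 3 ^ m := by
      rw [pow_mul (rhob + 1), one_add_rhob_sq, mul_pow, pow_mul]
      calc (rhob ^ 5) ^ m * (3 ^ m * rhob ^ m) = 3 ^ m * (rhob ^ 6) ^ m := by
            rw [← pow_mul, ← pow_mul]; ring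
        _ = 3 ^ m := by rw [rhob_six, one_pow, mul_one]
    calc rhob ^ (5 * (m + 1)) * (rhob + 1) ^ (2 * m + 1)
        = (rhob ^ (5 * m) * (rhob + 1) ^ (2 * m)) * (rhob ^ 5 * (rhob + 1)) := by ring
      _ = 3 ^ m * (1 + rho) := by rw [this, hq]; linear_combination 3 ^ m * hpr
  rw [mul_assoc, mul_assoc, h1, h2]
  have h3 := odd_const
  have h4 := A_add_B
  push_cast
  linear_combination 3 ^ m * h3 + 3 ^ m * h4

lemma Lam_pos (n : ℕ) : ∃ L : ℝ, 0 < L ∧
    ∑ y : Fin n → ZMod 3, Lc ((n + 1) / 2) y * chi (0 : Fin n → ZMod 3) y = (L : ℂ) := by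
  have hs : ∀ z : ℂ, ∏ k : Fin n, (z * e ((0 : Fin n → ZMod 3) k) +
      e (2 * (0 : Fin n → ZMod 3) k)) = (z + 1) ^ n := by
    intro z
    simp [e_zero]
  rw [Lc_sum, hs, hs]
  rcases Nat.even_or_odd' n with ⟨m, rfl | rfl⟩
  · refine ⟨3 ^ m, by positivity, ?_⟩
    have : (2 * m + 1) / 2 = m := by omega
    rw [this]
    exact Lam_even m
  · refine ⟨3 ^ m, by positivity, ?_⟩
    have : (2 * m + 1 + 1) / 2 = m + 1 := by omega
    rw [this]
    exact Lam_odd m

lemma chi_sub {n : ℕ} (u v y : Fin n → ZMod 3) :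
    chi (u - v) y = chi u y * (starRingEnd ℂ) (chi v y) := by
  rw [chi, chi, chi, map_prod, ← Finset.prod_mul_distrib]
  refine Finset.prod_congr rfl ?_
  intro k _
  rw [← e_sub]
  congr 1
  simp [sub_mul]

def P (n : ℕ) : Finset (Fin n → ZMod 3) :=
  univ.filter (fun y => (∀ k, y k ≠ 0) ∧
    (ones y % 6 = ((n + 1) / 2) % 6 ∨ ones y % 6 = ((n + 1) / 2 + 1) % 6))

lemma r_nonpos {n : ℕ} (y : Fin n → ZMod 3) (hy : y ∉ P n) : r ((n + 1) / 2) y ≤ 0 := by
  rw [r]
  split_ifs with h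
  · have h1 : ¬ (ones y % 6 = ((n + 1) / 2) % 6 ∨ ones y % 6 = ((n + 1) / 2 + 1) % 6) := by
      intro h2
      apply hy
      simp only [P, Finset.mem_filter, Finset.mem_univ, true_and]
      exact ⟨h, h2⟩
    push Not at h1
    rw [t]
    have h3 : ¬ ((ones y + 5 * ((n + 1) / 2)) % 6 = 0 ∨ (ones y + 5 * ((n + 1) / 2)) % 6 = 1) := by
      omega
    rw [if_neg h3]
    split_ifs <;> norm_num
  · exact le_refl 0

lemma card_P (n : ℕ) : (P n).card ≤ ∑ j ∈ (Finset.range (n + 1)).filter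
    (fun j => j % 6 = ((n + 1) / 2) % 6 ∨ j % 6 = ((n + 1) / 2 + 1) % 6), n.choose j := by
  classical
  have h1 : (P n).card ≤ (((Finset.range (n + 1)).filter
    (fun j => j % 6 = ((n + 1) / 2) % 6 ∨ j % 6 = ((n + 1) / 2 + 1) % 6)).biUnion
      (fun j => Finset.powersetCard j (univ : Finset (Fin n)))).card := by
    refine Finset.card_le_card_of_injOn (fun y => univ.filter (fun k => y k = 1)) ?_ ?_
    · intro y hy
      have hy' := (Finset.mem_filter.mp (Finset.mem_coe.mp hy)).2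
      apply Finset.mem_coe.mpr
      rw [Finset.mem_biUnion]
      refine ⟨ones y, ?_, ?_⟩
      · rw [Finset.mem_filter, Finset.mem_range]
        refine ⟨?_, hy'.2⟩
        have : ones y ≤ (univ : Finset (Fin n)).card := Finset.card_filter_le _ _
        rw [Finset.card_univ, Fintype.card_fin] at this
        omega
      · rw [Finset.mem_powersetCard]
        exact ⟨Finset.subset_univ _, rfl⟩
    · intro y hy y' hy' hyy
      have a1 := (Finset.mem_filter.mp (Finset.mem_coe.mp hy)).2.1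
      have a2 := (Finset.mem_filter.mp (Finset.mem_coe.mp hy')).2.1
      funext k
      have hk : (y k = 1) ↔ (y' k = 1) := by
        have := Finset.ext_iff.mp hyy k
        simpa using this
      have b1 := a1 k
      have b2 := a2 k
      have key : ∀ a b : ZMod 3, a ≠ 0 → b ≠ 0 → ((a = 1) ↔ (b = 1)) → a = b := by decide
      exact key _ _ b1 b2 hk
  refine h1.trans ?_
  refine Finset.card_biUnion_le.trans (le_of_eq ?_)
  refine Finset.sum_congr rfl ?_
  intro j _
  rw [Finset.card_powersetCard, Finset.card_univ, Fintype.card_fin]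

theorem up : UpStm := by
  classical
  intro n F hF
  refine le_trans ?_ (card_P n)
  by_contra hlt
  push Not at hlt
  let M : Matrix (P n) F ℂ := fun y u => chi (u : Fin n → ZMod 3) (y : Fin n → ZMod 3)
  have hker : LinearMap.ker (Matrix.mulVecLin M) ≠ ⊥ := by
    apply LinearMap.ker_ne_bot_of_finrank_lt
    simpa using hlt
  obtain ⟨c, hc, hc0⟩ := Submodule.exists_mem_ne_zero_of_ne_bot hker
  have hcz : ∀ y ∈ P n, ∑ u : F, c u * chi (u : Fin n → ZMod 3) y = 0 := by
    intro y hy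
    have := congrFun (LinearMap.mem_ker.mp hc) ⟨y, hy⟩
    simp only [Matrix.mulVecLin_apply, Matrix.mulVec, dotProduct, Pi.zero_apply] at this
    rw [← this]
    refine Finset.sum_congr rfl ?_
    intro u _
    simp only [M]
    ring
  obtain ⟨L, hL, hLs⟩ := Lam_pos n
  set m := (n + 1) / 2 with hm
  let H : (Fin n → ZMod 3) → ℂ := fun y => ∑ u : F, c u * chi (u : Fin n → ZMod 3) y
  have hS : ∑ y : Fin n → ZMod 3, Lc m y * (H y * (starRingEnd ℂ) (H y)) =
      (L : ℂ) * ∑ u : F, c u * (starRingEnd ℂ) (c u) := by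
    have h1 : ∀ y : Fin n → ZMod 3, Lc m y * (H y * (starRingEnd ℂ) (H y)) =
        ∑ u : F, ∑ v : F, c u * (starRingEnd ℂ) (c v) *
          (Lc m y * chi ((u : Fin n → ZMod 3) - (v : Fin n → ZMod 3)) y) := by
      intro y
      simp only [H, map_sum, map_mul]
      rw [Finset.sum_mul_sum, Finset.mul_sum]
      refine Finset.sum_congr rfl ?_
      intro u _
      rw [Finset.mul_sum]
      refine Finset.sum_congr rfl ?_
      intro v _
      rw [chi_sub]
      ring
    rw [Finset.sum_congr rfl (fun y _ => h1 y), Finset.sum_comm, Finset.mul_sum]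
    refine Finset.sum_congr rfl ?_
    intro u _
    rw [Finset.sum_comm]
    rw [Finset.sum_eq_single u]
    · rw [← Finset.mul_sum, sub_self, hLs]
      ring
    · intro v _ hvu
      rw [← Finset.mul_sum]
      have huv : (u : Fin n → ZMod 3) ≠ v := fun h => hvu (Subtype.ext h.symm)
      obtain ⟨⟨k1, hk1⟩, ⟨k2, hk2⟩⟩ := hF u u.2 v v.2 huv
      rw [Lc_sum_vanish n m _ ⟨k1, by simpa using hk1⟩ ⟨k2, by simpa using hk2⟩, mul_zero]
    · intro h
      exact absurd (Finset.mem_univ u) h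
  have hre := congrArg Complex.re hS
  have hleft : (∑ y : Fin n → ZMod 3, Lc m y * (H y * (starRingEnd ℂ) (H y))).re ≤ 0 := by
    rw [Complex.re_sum]
    apply Finset.sum_nonpos
    intro y _
    rw [Lc_eq, Complex.mul_conj, ← Complex.ofReal_mul, Complex.ofReal_re]
    by_cases hy : y ∈ P n
    · have : H y = 0 := hcz y hy
      rw [this]
      simp
    · exact mul_nonpos_of_nonpos_of_nonneg (r_nonpos y hy) (Complex.normSq_nonneg _)
  have hright : 0 < ((L : ℂ) * ∑ u : F, c u * (starRingEnd ℂ) (c u)).re := by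
    have h2 : (∑ u : F, c u * (starRingEnd ℂ) (c u)) = ((∑ u : F, Complex.normSq (c u) : ℝ) : ℂ) := by
      push_cast
      refine Finset.sum_congr rfl ?_
      intro u _
      rw [Complex.mul_conj]
    rw [h2, ← Complex.ofReal_mul, Complex.ofReal_re]
    apply mul_pos hL
    have hex : ∃ u : F, c u ≠ 0 := by
      by_contra hno
      push Not at hno
      exact hc0 (funext hno)
    obtain ⟨u, hu⟩ := hex
    exact Finset.sum_pos' (fun v _ => Complex.normSq_nonneg _)
      ⟨u, Finset.mem_univ u, Complex.normSq_pos.mpr hu⟩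
  linarith

end

end Pool.CM6
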